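import Pool.Agent.Y468.SR.Iso

/-! Diagrams of knots which cannot be reduced: each concordance to such a knot without triple points
can be replaced by a ribbon concordance. -/

namespace Pool.Agent.R800.IR

open Pool.Agent.Y468.SR

set_option linter.unusedSimpArgs false

/-- The knot diagram with the cyclic word `w` has no kinks (never does the knot pass through a
crossing twice in succession), and whenever the knot passes through two crossings in succession on
the same side (both times above or both times below), these two crossings have the same sign. For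
instance alternating, positive and negative diagrams without kinks have this property. -/
def Irr (w : List Pass) : Prop :=
  ∀ (p q : Pass) (z : List Pass), w.IsRotated (p :: q :: z) →
    q.crossing ≠ p.crossing ∧ (q.isOver = p.isOver → q.isPos = p.isPos)

theorem Irr.rotated {w w' : List Pass} (h : Irr w) (hr : w.IsRotated w') : Irr w' :=
  fun p q z h' => h p q z (hr.trans h')

theorem isRotated_swap (x y : List Pass) : (x ++ y).IsRotated (y ++ x) :=
  List.isRotated_append

/-- adjacent passages do not cancel -/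
theorem no_canc {P : List Pass} (hP : WF P) {m : ℕ → ℕ} (hm : Matching P m) {p q : Pass}
    (hp : p ∈ P) (hq : q ∈ P) (h : q.crossing ≠ p.crossing ∧ (q.isOver = p.isOver → q.isPos = p.isPos)) :
    ¬Canc m p q := by
  rintro (⟨-, h2, -⟩ | ⟨h1, h2, h3⟩)
  · exact h.1 h2
  · obtain ⟨q₁, g1, g2, g3, g4⟩ := hm p hp
    have h5 : q.isPos = !p.isPos := by
      have h6 : q.isPos = q₁.isPos := by
        have key : ∀ r ∈ P, ∀ r' ∈ P, r.crossing = r'.crossing → r.isPos = r'.isPos := by
          intro r hr r' hr' hc
          by_cases ho : r.isOver = r'.isOver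
          · rw [List.inj_on_of_nodup_map hP.2 hr hr' (by simp [hc, ho])]
          · have : r = r'.mate := List.inj_on_of_nodup_map hP.2 hr (hP.1 _ hr') (by
              simp only [Pass.mate, Prod.mk.injEq]
              refine ⟨hc, ?_⟩
              cases k3 : r.isOver <;> cases k4 : r'.isOver <;> simp_all)
            rw [this]; rfl
        exact key q hq q₁ g1 (by rw [g2, h2])
      rw [h6]
      exact g4 (by rw [g2]; exact h1)
    have h7 := h.2 h3
    rw [h5] at h7
    cases h8 : p.isPos <;> simp [h8] at h7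

theorem term_aux {p q : Pass} {y z : List Pass} {e : List Pass}
    (hG : Good [(p :: (y ++ q :: z), 0)] e) {m : ℕ → ℕ}
    (hm : Matching (passes [(p :: (y ++ q :: z), 0)] ++ e) m)
    (hN : NullR [(p :: (y ++ q :: z), 0)] e m) (hI : Irr (p :: (y ++ q :: z))) :
    ¬Canc m p q := by
  intro hpq
  have hpP : p ∈ passes [(p :: (y ++ q :: z), 0)] ++ e := by simp
  have hqP : q ∈ passes [(p :: (y ++ q :: z), 0)] ++ e := by simp
  have hyP : ∀ r ∈ y, r ∈ passes [(p :: (y ++ q :: z), 0)] ++ e := fun r hr => by simp [hr]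
  have hzP : ∀ r ∈ z, r ∈ passes [(p :: (y ++ q :: z), 0)] ++ e := fun r hr => by simp [hr]
  have hnd := WF.nodup hG.wf
  have hqy : (q ∉ y ∧ q ∉ z ∧ p ∉ y ∧ p ∉ z) ∧ p ∉ e ∧ q ∉ e := by
    have h3 : (p :: (y ++ q :: z) ++ e).Nodup := by simpa using hnd
    rw [List.cons_append, List.nodup_cons, List.append_assoc, List.nodup_append] at h3
    obtain ⟨h3, h4, h5, h6⟩ := h3
    rw [List.cons_append, List.nodup_cons] at h5
    exact ⟨⟨fun h => h6 q h q (by simp) rfl, fun h => h5.1 (by simp [h]), fun h => h3 (by simp [h]),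
      fun h => h3 (by simp [h])⟩, fun h => h3 (by simp [h]), fun h => h5.1 (by simp [h])⟩
  obtain ⟨⟨hqy1, hqz, hpy, hpz⟩, hpe, hqe⟩ := hqy
  obtain ⟨o', u', v1, v2, v3, v4⟩ := exists_twist hG.wf hm hpP hqP hpq
    (Equiv.sumComm _ _ : Equiv.Perm (FreeGroup (ℕ × Bool) ⊕ FreeGroup (ℕ × Bool)))
    (valid_map (lft _) (valid_letter hm))
  have hval : ∀ w : List Pass, (∀ r ∈ w, r ∈ passes [(p :: (y ++ q :: z), 0)] ++ e) → p ∉ w →
      q ∉ w → wval o' u' w = lft _ (wval (fo m) (fu m) w) := by
    intro w hw hpw hqw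
    rw [← wval_map]
    exact wval_congr fun r hr => v4 r (hw r hr) (fun h => hpw (h ▸ hr)) (fun h => hqw (h ▸ hr))
  have h3 := (hN _ o' u' v1 _ List.mem_cons_self).2 rfl
  simp only [wval_cons, wval_append] at h3
  rw [hval y hyP hpy hqy1, hval z hzP hpz hqz, hval e (fun r hr => List.mem_append_right _ hr) hpe
    hqe, v2, v3, ← mul_assoc, ← mul_assoc] at h3
  rcases fix_of_conj h3 with hY | hZ
  · by_cases hy0 : y = []
    · subst hy0
      exact no_canc hG.wf hm hpP hqP (hI p q z (List.IsRotated.refl _)) hpq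
    · obtain ⟨a, c, p₁, q₁, h4, h5⟩ := exists_canc hm hy0 hyP hY
      refine no_canc hG.wf hm (hyP p₁ (by simp [h4])) (hyP q₁ (by simp [h4]))
        (hI p₁ q₁ (c ++ q :: z ++ (p :: a)) ?_) h5
      have := isRotated_swap (p :: a) (p₁ :: q₁ :: (c ++ q :: z))
      rw [h4]
      simpa using this
  · by_cases hz0 : z = []
    · subst hz0
      refine no_canc hG.wf hm hqP hpP (hI q p y ?_) (hpq.symm hm hpP)
      have := isRotated_swap (p :: y) [q]
      simpa using this
    · obtain ⟨a, c, p₁, q₁, h4, h5⟩ := exists_canc hm hz0 hzP hZ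
      refine no_canc hG.wf hm (hzP p₁ (by simp [h4])) (hzP q₁ (by simp [h4]))
        (hI p₁ q₁ (c ++ (p :: (y ++ q :: a))) ?_) h5
      have := isRotated_swap (p :: (y ++ q :: a)) (p₁ :: q₁ :: c)
      rw [h4]
      simpa using this

/-- the crossings of an irreducible diagram are matched with those at the other end -/
theorem term_of_irr {k e : List Pass} (hG : Good [(k, 0)] e) (hI : Irr k) : Term [(k, 0)] e := by
  obtain ⟨m, hm, hN⟩ := nullR_of_inv hG.nd hG.inv
  refine ⟨fun C hC h => ?_, m, hm, hN, fun p hp q hq hpq => ?_⟩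
  · rw [List.mem_singleton] at hC
    subst hC
    exact absurd rfl h
  · obtain ⟨q', hq', hc, hne⟩ : ∃ q' ∈ passes [(k, 0)], Canc m p q' ∧ q' ≠ p := by
      by_cases hmp : m p.crossing = p.crossing
      · exact ⟨p.mate, hG.cl.1.1 p hp, Or.inl ⟨hmp, rfl, rfl⟩,
          fun h => by simpa using congrArg Pass.isOver h⟩
      · by_cases ho : q.isOver = p.isOver
        · exact ⟨q, hq, Or.inr ⟨hmp, hpq.symm, ho⟩, fun h => hmp (by rw [hpq, h])⟩
        · refine ⟨q.mate, hG.cl.1.1 q hq, Or.inr ⟨hmp, hpq.symm, ?_⟩,
            fun h => hmp (by rw [hpq]; exact (congrArg Pass.crossing h : q.mate.crossing = _))⟩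
          simp only [mate_isOver]
          cases k3 : q.isOver <;> cases k4 : p.isOver <;> simp_all
    simp only [passes_cons, passes_nil, List.append_nil] at hp hq'
    obtain ⟨x, v, rfl⟩ := List.append_of_mem hp
    have hqv : q' ∈ v ++ x := by
      simp only [List.mem_append, List.mem_cons] at hq' ⊢
      tauto
    obtain ⟨y, z, hyz⟩ := List.append_of_mem hqv
    have g2 : Good [(p :: v ++ x, 0)] e := good_rotate hG
    have n2 : NullR [(p :: v ++ x, 0)] e m := nullR_rotate hN
    have hperm2 := perm_rotate x (p :: v) 0 []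
    have m2 := matching_congr (fun r => (hperm2.append_right e).mem_iff) hm
    have hI2 : Irr (p :: v ++ x) := hI.rotated (isRotated_swap x (p :: v))
    have hw : p :: v ++ x = p :: (y ++ q' :: z) := by rw [← hyz]; rfl
    rw [hw] at g2 n2 m2 hI2
    exact term_aux g2 m2 n2 hI2 hc

/-- reduction to an irreducible diagram -/
theorem to_irr {k : List Pass} (hk : Classical [(k, 0)]) (hI : Irr k) (n : ℕ) :
    ∀ w : List Pass, w.length ≤ n → Good [(w, 0)] (bar k) →
      Movie false false [(w, 0)] [(k, 0)] := by
  induction n with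
  | zero =>
    intro w hl hG
    rcases reduceKnot hG with hT | ⟨v, hv, -⟩
    · have hG2 := good_symm hG hk
      exact iso_movie hG hk hT (length_le hG2 hG.cl (term_of_irr hG2 hI))
    · omega
  | succ n ih =>
    intro w hl hG
    rcases reduceKnot hG with hT | ⟨v, hv, hM, hG'⟩
    · have hG2 := good_symm hG hk
      exact iso_movie hG hk hT (length_le hG2 hG.cl (term_of_irr hG2 hI))
    · exact hM.trans (ih v (by omega) hG')

theorem irr_ren {f : ℕ → ℕ} (hf : Function.Injective f) {k : List Pass} (h : Irr k) :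
    Irr (k.map (ren f)) := by
  intro p q z hr
  obtain ⟨n, hn⟩ := hr
  rw [← List.map_rotate] at hn
  obtain ⟨p', w, h1, h2, h3⟩ := List.map_eq_cons_iff.1 hn
  obtain ⟨q', z', h4, h5, h6⟩ := List.map_eq_cons_iff.1 h3
  subst h4
  obtain ⟨g1, g2⟩ := h p' q' z' ⟨n, h1⟩
  rw [← h2, ← h5]
  exact ⟨fun h' => g1 (hf h'), g2⟩

/-- a concordance without triple points from a knot to a knot with an irreducible diagram can be
replaced by a ribbon concordance -/
theorem ribbon_to_irr {k k' : List Pass} (h₁ : Classical [(k', 0)]) (h₂ : Classical [(k, 0)])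
    (hI : Irr k) {births : Bool} (h : Movie false births [(k', 0)] [(k, 0)]) :
    Movie false false [(k', 0)] [(k, 0)] := by
  have i1 : Function.Injective fun n : ℕ => 2 * n := fun a b h => by simp only at h; omega
  have i2 : Function.Injective fun n : ℕ => 2 * n + 1 := fun a b h => by simp only at h; omega
  have w2 : WF k := by simpa [wf_iff] using wf_iff.1 h₂.1
  have c1 := classical_ren i1 h₁
  have c2 := classical_ren i2 h₂
  have we : WF (bar (k.map (ren fun n => 2 * n + 1))) :=
    (WF.ren w2 fun p _ q _ h => by omega).bar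
  have hodd : ∀ p ∈ bar (k.map (ren fun n => 2 * n + 1)), p.crossing % 2 = 1 := by
    intro p hp
    obtain ⟨q, hq, h⟩ := List.mem_map.1 (mem_bar.1 hp)
    have : p.crossing = 2 * q.crossing + 1 := (congrArg Pass.crossing h).symm
    omega
  obtain ⟨κ, ⟨C, hC, hκ⟩, hI'⟩ := dbl_movie h we hodd ⟨0, ⟨(k, 0), by simp, rfl⟩, inv_base w2⟩
  rw [List.mem_singleton] at hC
  subst hC
  simp only at hκ
  subst hκ
  have hG : Good [(k'.map (ren fun n => 2 * n), 0)] (bar (k.map (ren fun n => 2 * n + 1))) := by
    refine ⟨c1, by simp, ⟨_, List.mem_singleton.2 rfl, rfl⟩, ?_, hI'⟩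
    have := wf_dbl (D := [(k', 0)]) (κ := 0) h₁.1 we hodd
    rw [wf_iff, passes_snoc] at this
    exact this
  have j1 := to_irr c2 (irr_ren i2 hI) _ _ le_rfl hG
  have s1 : Step false false [(k', 0)] [(k'.map (ren fun n => 2 * n), 0)] :=
    Step.rename (fun n => 2 * n) [(k', 0)] fun p _ q _ h => by omega
  have s3 : Step false false [(k.map (ren fun n => 2 * n + 1), 0)] [(k, 0)] := by
    have := Step.rename (r3 := false) (births := false) (fun n => (n - 1) / 2)
      [(k.map (ren fun n => 2 * n + 1), 0)] (by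
        intro p hp q hq h
        simp only [passes_cons, passes_nil, List.append_nil] at hp hq
        obtain ⟨p', -, rfl⟩ := List.mem_map.1 hp
        obtain ⟨q', -, rfl⟩ := List.mem_map.1 hq
        simp only [ren] at h ⊢
        omega)
    have e : renamed (fun n => (n - 1) / 2) [(k.map (ren fun n => 2 * n + 1), 0)] = [(k, 0)] := by
      simp only [renamed, List.map_cons, List.map_nil, List.map_map, List.cons.injEq,
        Prod.mk.injEq, and_true]
      conv_rhs => rw [← List.map_id k]
      refine List.map_congr_left fun p _ => ?_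
      simp [ren]
    rw [e] at this
    exact this
  exact Movie.head h₁ c1 s1 (j1.trans (Movie.head c2 h₂ s3 Relation.ReflTransGen.refl))

end Pool.Agent.R800.IR
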